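import Pool.Agent.H20.MT.Stmts

set_option autoImplicit false

namespace MTA
open Finset

private lemma copr_step (S : Finset ℕ) (h1 : ∀ a ∈ S, 1 ≤ a ∧ Squarefree a)
    (hd : ∀ a ∈ S, ∀ d, d ∣ a → d ∈ S) (f : ℕ → ℝ) (f0 : ∀ a, 0 ≤ f a)
    (fm : ∀ a b : ℕ, 1 ≤ a → a ≤ b → f b ≤ f a) {p : ℕ} (hp : p.Prime) :
    (1 - 1 / (p : ℝ)) * ∑ a ∈ S, f a / a ≤ ∑ a ∈ S.filter (fun a => ¬ p ∣ a), f a / a := by
  have hp0 : (0 : ℝ) < p := by exact_mod_cast hp.pos
  set T : ℝ := ∑ a ∈ S.filter (fun a => ¬ p ∣ a), f a / a with hT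
  have hT0 : 0 ≤ T := Finset.sum_nonneg fun a _ => div_nonneg (f0 a) (Nat.cast_nonneg a)
  have key : ∑ a ∈ S.filter (fun a => p ∣ a), f a / a ≤ 1 / (p : ℝ) * T := by
    have e1 : ∀ a ∈ S.filter (fun a => p ∣ a),
        f a / a ≤ 1 / (p : ℝ) * (f (a / p) / ((a / p : ℕ) : ℝ)) := by
      intro a ha
      obtain ⟨haS, b, rfl⟩ := Finset.mem_filter.mp ha
      rw [Nat.mul_div_cancel_left b hp.pos]
      have hb : 1 ≤ b := by
        have := (h1 _ haS).1
        rcases Nat.eq_zero_or_pos b with h | h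
        · subst h
          simp at this
        · exact h
      have hb0 : (0 : ℝ) < b := by exact_mod_cast hb
      have h2 : f (p * b) ≤ f b := fm b (p * b) hb (Nat.le_mul_of_pos_left b hp.pos)
      push_cast
      rw [div_mul_div_comm, one_mul]
      exact div_le_div_of_nonneg_right h2 (by positivity)
    have inj : Set.InjOn (fun a => a / p) (S.filter (fun a => p ∣ a) : Finset ℕ) := by
      intro a ha b hb hab
      have ha' := (Finset.mem_filter.mp (Finset.mem_coe.mp ha)).2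
      have hb' := (Finset.mem_filter.mp (Finset.mem_coe.mp hb)).2
      simp only at hab
      rw [← Nat.mul_div_cancel' ha', ← Nat.mul_div_cancel' hb', hab]
    calc ∑ a ∈ S.filter (fun a => p ∣ a), f a / a
        ≤ ∑ a ∈ S.filter (fun a => p ∣ a), 1 / (p : ℝ) * (f (a / p) / ((a / p : ℕ) : ℝ)) :=
          Finset.sum_le_sum e1
      _ = 1 / (p : ℝ) * ∑ b ∈ (S.filter (fun a => p ∣ a)).image (fun a => a / p), f b / b := by
          rw [← Finset.mul_sum, Finset.sum_image inj]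
      _ ≤ 1 / (p : ℝ) * T := by
          apply mul_le_mul_of_nonneg_left _ (by positivity)
          refine Finset.sum_le_sum_of_subset_of_nonneg ?_ fun b _ _ =>
            div_nonneg (f0 b) (Nat.cast_nonneg b)
          intro b hb
          obtain ⟨a, ha, rfl⟩ := Finset.mem_image.mp hb
          obtain ⟨haS, c, rfl⟩ := Finset.mem_filter.mp ha
          rw [Nat.mul_div_cancel_left c hp.pos]
          refine Finset.mem_filter.mpr ⟨hd _ haS c (Dvd.intro_left p rfl), ?_⟩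
          rintro ⟨d, rfl⟩
          have h3 := (h1 _ haS).2
          have h4 : p * p ∣ p * (p * d) := ⟨d, by ring⟩
          have := h3 p h4
          exact hp.one_lt.ne' (Nat.isUnit_iff.mp this)
  have hsplit := Finset.sum_filter_add_sum_filter_not S (fun a => p ∣ a) (fun a => f a / (a : ℝ))
  rw [← hsplit]
  have hq : (1 - 1 / (p : ℝ)) * (1 + 1 / (p : ℝ)) ≤ 1 := by
    have : 0 ≤ 1 / (p : ℝ) := by positivity
    nlinarith
  have hq0 : 0 ≤ 1 - 1 / (p : ℝ) := by
    have : 1 / (p : ℝ) ≤ 1 := by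
      rw [div_le_one hp0]
      exact_mod_cast hp.one_lt.le
    linarith
  calc (1 - 1 / (p : ℝ)) * (∑ a ∈ S.filter (fun a => p ∣ a), f a / a + T)
      ≤ (1 - 1 / (p : ℝ)) * (1 / (p : ℝ) * T + T) :=
        mul_le_mul_of_nonneg_left (by linarith) hq0
    _ = (1 - 1 / (p : ℝ)) * (1 + 1 / (p : ℝ)) * T := by ring
    _ ≤ 1 * T := mul_le_mul_of_nonneg_right hq hT0
    _ = T := one_mul T

private lemma copr_all (f : ℕ → ℝ) (f0 : ∀ a, 0 ≤ f a)
    (fm : ∀ a b : ℕ, 1 ≤ a → a ≤ b → f b ≤ f a) (Q : Finset ℕ) (hQ : ∀ p ∈ Q, p.Prime)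
    (S : Finset ℕ) (h1 : ∀ a ∈ S, 1 ≤ a ∧ Squarefree a) (hd : ∀ a ∈ S, ∀ d, d ∣ a → d ∈ S) :
    (∏ p ∈ Q, (1 - 1 / (p : ℝ))) * ∑ a ∈ S, f a / a ≤
      ∑ a ∈ S.filter (fun a => ∀ p ∈ Q, ¬ p ∣ a), f a / a := by
  induction Q using Finset.induction_on with
  | empty => simp
  | insert p Q hpQ ih =>
    have hp : p.Prime := hQ p (Finset.mem_insert_self _ _)
    have ih' := ih fun q hq => hQ q (Finset.mem_insert_of_mem hq)
    have hq0 : 0 ≤ 1 - 1 / (p : ℝ) := by
      have hp0 : (0 : ℝ) < p := by exact_mod_cast hp.pos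
      have : 1 / (p : ℝ) ≤ 1 := by
        rw [div_le_one hp0]
        exact_mod_cast hp.one_lt.le
      linarith
    have st := copr_step (S.filter (fun a => ∀ q ∈ Q, ¬ q ∣ a))
      (fun a ha => h1 a (Finset.mem_filter.mp ha).1) (fun a ha d hda => by
        obtain ⟨h3, h4⟩ := Finset.mem_filter.mp ha
        exact Finset.mem_filter.mpr ⟨hd a h3 d hda, fun q hq hqd => h4 q hq (hqd.trans hda)⟩)
      f f0 fm hp
    rw [Finset.prod_insert hpQ, mul_assoc]
    refine (mul_le_mul_of_nonneg_left ih' hq0).trans (st.trans (le_of_eq ?_))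
    refine Finset.sum_congr ?_ fun _ _ => rfl
    ext a
    simp only [Finset.mem_filter, Finset.mem_insert, forall_eq_or_imp]
    tauto

theorem COPR : S_COPR := by
  intro W q V f _ _ _ f0 fm
  have h := copr_all f f0 fm q.primeFactors (fun p hp => Nat.prime_of_mem_primeFactors hp)
    (SF W V) (fun a ha => by
      simp only [SF, Finset.mem_filter, Finset.mem_Icc] at ha
      exact ⟨ha.1.1, ha.2.1⟩) (fun a ha d hda => by
      simp only [SF, Finset.mem_filter, Finset.mem_Icc] at ha ⊢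
      refine ⟨⟨Nat.pos_of_dvd_of_pos hda ha.1.1, (Nat.le_of_dvd ha.1.1 hda).trans ha.1.2⟩,
        ha.2.1.squarefree_of_dvd hda, ha.2.2.coprime_dvd_left hda⟩)
  refine h.trans ?_
  refine Finset.sum_le_sum_of_subset_of_nonneg ?_ fun b _ _ =>
    div_nonneg (f0 b) (Nat.cast_nonneg b)
  intro a ha
  obtain ⟨h1, h2⟩ := Finset.mem_filter.mp ha
  refine Finset.mem_filter.mpr ⟨h1, ?_⟩
  by_contra hc
  obtain ⟨p, hp, hpa, hpq⟩ := Nat.Prime.not_coprime_iff_dvd.mp hc
  exact h2 p (Nat.mem_primeFactors.mpr ⟨hp, hpq, by omega⟩) hpa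

end MTA
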