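import Pool.Agent.H7.MTA.Com

set_option autoImplicit false

namespace MTA
open Finset

theorem SUMU : S_SUMU := by
  intro W n Y R0 R V α _ hα
  have hP : ∀ p ∈ PP W Y, p.Prime := fun p hp => (h7_PP p hp).1
  set t : Fin (n + 1) → Finset ℕ := Fin.cons (SF W R0) (fun _ => SF W V) with ht
  set g : Fin (n + 1) → ℕ → ℝ :=
    Fin.cons (fun a => (1 : ℝ) / a) (fun _ a => GG α V a ^ 2 / a) with hg
  have g0 : ∀ k a, 0 ≤ g k a := by
    intro k a
    refine Fin.cases ?_ (fun i => ?_) k
    · simp only [hg, Fin.cons_zero]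
      positivity
    · simp only [hg, Fin.cons_succ]
      positivity
  have rhs : Msum W R0 * (A2s W V α) ^ n =
      ∑ r ∈ Fintype.piFinset t, ∏ k, g k (r k) := by
    rw [← Finset.prod_univ_sum, Fin.prod_univ_succ]
    simp only [ht, hg, Fin.cons_zero, Fin.cons_succ, Finset.prod_const, Finset.card_univ,
      Fintype.card_fin]
    rfl
  set e : Cfg (PP W Y) n → (Fin (n + 1) → ℕ) := fun A k => rr A k with he
  have term : ∀ A : Cfg (PP W Y) n, (yv R0 R V α A) ^ 2 / (qq A : ℝ) ≤
      if e A ∈ Fintype.piFinset t then ∏ k, g k (e A k) else 0 := by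
    intro A
    by_cases hy : yv R0 R V α A = 0
    · rw [hy]
      simp only [ne_eq, OfNat.ofNat_ne_zero, not_false_eq_true, zero_pow, zero_div]
      split_ifs
      · exact Finset.prod_nonneg fun k _ => g0 k _
      · exact le_rfl
    · have hc : (rr A 0 : ℝ) ≤ R0 ∧ (∏ k : Fin n, (rr A k.succ : ℝ)) ≤ R := by
        by_contra hc
        exact hy (by rw [yv, if_neg hc])
      have hyv : yv R0 R V α A = ∏ k : Fin n, GG α V (rr A k.succ) := by rw [yv, if_pos hc]
      have hV : ∀ k : Fin n, (rr A k.succ : ℝ) ≤ V := by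
        intro k
        by_contra hk
        apply hy
        rw [hyv]
        exact Finset.prod_eq_zero (Finset.mem_univ k) (by rw [GG, if_neg hk])
      have hmem : e A ∈ Fintype.piFinset t := by
        rw [Fintype.mem_piFinset]
        intro k
        refine Fin.cases ?_ (fun i => ?_) k
        · simp only [ht, Fin.cons_zero, he]
          exact h7_mem_SF.mpr ⟨h7_rr_pos hP A 0, hc.1, h7_rr_sqf hP A 0, h7_rr_cop W h7_PP A 0⟩
        · simp only [ht, Fin.cons_succ, he]
          exact h7_mem_SF.mpr ⟨h7_rr_pos hP A _, hV i, h7_rr_sqf hP A _, h7_rr_cop W h7_PP A _⟩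
      rw [if_pos hmem, hyv, h7_qq, Fin.prod_univ_succ, Fin.prod_univ_succ]
      simp only [hg, he, Fin.cons_zero, Fin.cons_succ]
      push_cast
      rw [Finset.prod_div_distrib, Finset.prod_pow, one_div, inv_mul_eq_div, div_div,
        mul_comm (∏ i : Fin n, (rr A i.succ : ℝ))]
  rw [rhs]
  calc ∑ A : Cfg (PP W Y) n, (yv R0 R V α A) ^ 2 / (qq A : ℝ)
      ≤ ∑ A : Cfg (PP W Y) n, if e A ∈ Fintype.piFinset t then ∏ k, g k (e A k) else 0 :=
        Finset.sum_le_sum fun A _ => term A
    _ = ∑ A ∈ (Finset.univ : Finset (Cfg (PP W Y) n)).filter (fun A => e A ∈ Fintype.piFinset t),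
          ∏ k, g k (e A k) := by rw [Finset.sum_filter]
    _ = ∑ r ∈ ((Finset.univ : Finset (Cfg (PP W Y) n)).filter
          (fun A => e A ∈ Fintype.piFinset t)).image e, ∏ k, g k (r k) := by
        rw [Finset.sum_image]
        intro A _ A' _ h
        exact h7_inj hP h
    _ ≤ ∑ r ∈ Fintype.piFinset t, ∏ k, g k (r k) := by
        refine Finset.sum_le_sum_of_subset_of_nonneg ?_ fun r _ _ =>
          Finset.prod_nonneg fun k _ => g0 k _
        intro r hr
        obtain ⟨A, hA, rfl⟩ := Finset.mem_image.mp hr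
        exact (Finset.mem_filter.mp hA).2

end MTA
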