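import Pool.Agent.H7.MTA.Com

set_option autoImplicit false

namespace MTA
open Finset

private lemma ykl_some_iff {P : Finset ℕ} {n : ℕ} (hP : ∀ p ∈ P, p.Prime) (B : Cfg P n) (p : ↥P) :
    (p : ℕ) ∣ qq B ↔ (B p).isSome = true := by
  have hp : (p : ℕ).Prime := hP p p.2
  unfold qq
  rw [hp.prime.dvd_finset_prod_iff]
  constructor
  · rintro ⟨q, -, hq⟩
    by_cases h : (B q).isSome = true
    · rw [if_pos h, Nat.prime_dvd_prime_iff_eq hp (hP q q.2)] at hq
      rw [Subtype.ext hq]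
      exact h
    · rw [if_neg h] at hq
      exact absurd (Nat.dvd_one.mp hq) hp.one_lt.ne'
  · intro h
    exact ⟨p, Finset.mem_univ _, by rw [if_pos h]⟩

private lemma ykl_pf {P : Finset ℕ} (hP : ∀ p ∈ P, p.Prime) (m : ℕ) (hm : 1 ≤ m)
    (hs : ∀ q, q.Prime → q ∣ m → q ∈ P) : P.filter (fun p => p ∣ m) = m.primeFactors := by
  ext q
  simp only [Finset.mem_filter, Nat.mem_primeFactors]
  constructor
  · rintro ⟨h1, h2⟩
    exact ⟨hP q h1, h2, by omega⟩
  · rintro ⟨h1, h2, -⟩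
    exact ⟨hs q h1 h2, h2⟩

private lemma ykl_prod {P : Finset ℕ} {M : Type} [CommMonoid M] (hP : ∀ p ∈ P, p.Prime) (m : ℕ)
    (hm : 1 ≤ m) (hs : ∀ q, q.Prime → q ∣ m → q ∈ P) (f : ℕ → M) :
    (∏ p : ↥P, if (p : ℕ) ∣ m then f p else 1) = ∏ p ∈ m.primeFactors, f p := by
  rw [Finset.prod_coe_sort P (fun p => if p ∣ m then f p else 1), ← Finset.prod_filter,
    ykl_pf hP m hm hs]

private lemma ykl_qq_pf {P : Finset ℕ} {n : ℕ} (hP : ∀ p ∈ P, p.Prime) (B : Cfg P n) (q : ℕ)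
    (hq : q.Prime) (hd : q ∣ qq B) : q ∈ P := by
  unfold qq at hd
  rw [hq.prime.dvd_finset_prod_iff] at hd
  obtain ⟨p, -, hp⟩ := hd
  split_ifs at hp
  · rw [Nat.prime_dvd_prime_iff_eq hq (hP p p.2)] at hp
    rw [hp]
    exact p.2
  · exact absurd (Nat.dvd_one.mp hp) hq.one_lt.ne'

private lemma ykl_mY_nonneg {n : ℕ} (k : Fin (n + 1)) (p : ℕ) (a b : Option (Fin (n + 1))) :
    0 ≤ mY k p a b := by
  unfold mY
  split
  · exact zero_le_one
  · exact le_rfl
  · split_ifs <;> positivity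
  · split_ifs <;> norm_num

private lemma ykl_yv_nonneg {P : Finset ℕ} {n : ℕ} {R0 R V α : ℝ} (hα : 0 ≤ α) (A : Cfg P n) :
    0 ≤ yv R0 R V α A := by
  unfold yv
  split_ifs
  · exact Finset.prod_nonneg fun k _ => h7_GG_nonneg hα _
  · exact le_rfl

theorem YKL (hC : S_COPR) : S_YKL := by
  intro W n Y R0 R V α hW hα hV hVY k B hB h0 hR
  have hP : ∀ p ∈ PP W Y, p.Prime := fun p hp => (h7_PP p hp).1
  have hqpos : 1 ≤ qq B := h7_qq_pos hP B
  -- the extension by `a`
  set ext : ℕ → Cfg (PP W Y) n := fun a p => if (p : ℕ) ∣ a then some k.succ else B p with hext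
  set S : Finset ℕ := (SF W V).filter (fun a => a.Coprime (qq B)) with hS
  have mS : ∀ a ∈ S, 1 ≤ a ∧ (a : ℝ) ≤ V ∧ Squarefree a ∧ a.Coprime W ∧ a.Coprime (qq B) := by
    intro a ha
    obtain ⟨h1, h2⟩ := Finset.mem_filter.mp ha
    obtain ⟨h3, h4, h5, h6⟩ := h7_mem_SF.mp h1
    exact ⟨h3, h4, h5, h6, h2⟩
  have supp : ∀ a ∈ S, ∀ q, q.Prime → q ∣ a → q ∈ PP W Y := by
    intro a ha q hq hqa
    obtain ⟨h1, h2, h3, h4, h5⟩ := mS a ha
    simp only [PP, Finset.mem_filter, Finset.mem_Icc]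
    refine ⟨⟨hq.two_le, ?_⟩, hq, ?_⟩
    · have : (q : ℝ) ≤ Y := by
        have : (q : ℝ) ≤ a := by exact_mod_cast Nat.le_of_dvd h1 hqa
        linarith
      exact (Nat.le_floor_iff' hq.pos.ne').mpr this
    · intro hqW
      exact Nat.not_coprime_of_dvd_of_dvd hq.one_lt hqa hqW h4
  have bnone : ∀ a ∈ S, ∀ p : ↥(PP W Y), (p : ℕ) ∣ a → B p = none := by
    intro a ha p hpa
    by_contra hne
    have : (p : ℕ) ∣ qq B := (ykl_some_iff hP B p).mpr (Option.isSome_iff_ne_none.mpr hne)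
    exact Nat.not_coprime_of_dvd_of_dvd (hP p p.2).one_lt hpa this (mS a ha).2.2.2.2
  have rk : ∀ a ∈ S, rr (ext a) k.succ = a := by
    intro a ha
    obtain ⟨h1, h2, h3, h4, h5⟩ := mS a ha
    unfold rr
    have : ∀ p : ↥(PP W Y), (if ext a p = some k.succ then (p : ℕ) else 1) =
        if (p : ℕ) ∣ a then (p : ℕ) else 1 := by
      intro p
      by_cases hpa : (p : ℕ) ∣ a
      · simp [hext, hpa]
      · simp [hext, hpa, hB p]
    rw [Finset.prod_congr rfl fun p _ => this p, ykl_prod hP a h1 (supp a ha) (fun p => p)]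
    exact Nat.prod_primeFactors_of_squarefree h3
  have rl : ∀ a ∈ S, ∀ l, l ≠ k.succ → rr (ext a) l = rr B l := by
    intro a ha l hl
    unfold rr
    refine Finset.prod_congr rfl fun p _ => ?_
    by_cases hpa : (p : ℕ) ∣ a
    · have h6 : ext a p = some k.succ := by simp [hext, hpa]
      rw [h6, bnone a ha p hpa]
      simp [hl.symm]
    · have h6 : ext a p = B p := by simp [hext, hpa]
      rw [h6]
  have wgt : ∀ a ∈ S, ∏ p : ↥(PP W Y), mY k.succ (p : ℕ) (ext a p) (B p) = 1 / (a : ℝ) := by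
    intro a ha
    obtain ⟨h1, h2, h3, h4, h5⟩ := mS a ha
    have : ∀ p : ↥(PP W Y), mY k.succ (p : ℕ) (ext a p) (B p) =
        if (p : ℕ) ∣ a then 1 / ((p : ℕ) : ℝ) else 1 := by
      intro p
      by_cases hpa : (p : ℕ) ∣ a
      · have h6 : ext a p = some k.succ := by simp [hext, hpa]
        rw [h6, bnone a ha p hpa, if_pos hpa]
        simp [mY]
      · have h6 : ext a p = B p := by simp [hext, hpa]
        rw [h6, if_neg hpa]
        rcases hBp : B p with _ | j
        · simp [mY]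
        · have : j ≠ k.succ := fun hj => hB p (by rw [hBp, hj])
          simp [mY, this]
    rw [Finset.prod_congr rfl fun p _ => this p,
      ykl_prod hP a h1 (supp a ha) (fun p => 1 / (p : ℝ))]
    rw [Finset.prod_div_distrib, Finset.prod_const_one]
    congr 1
    have h7 := Nat.prod_primeFactors_of_squarefree h3
    conv_rhs => rw [← h7]
    push_cast
    rfl
  have yval : ∀ a ∈ S, yv R0 R V α (ext a) =
      (∏ l ∈ univ.erase k, GG α V (rr B l.succ)) * GG α V a := by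
    intro a ha
    obtain ⟨h1, h2, h3, h4, h5⟩ := mS a ha
    have hsucc : ∀ l ∈ (univ : Finset (Fin n)).erase k, l.succ ≠ k.succ := by
      intro l hl h
      exact (Finset.mem_erase.mp hl).1 (Fin.succ_injective _ h)
    have c0 : (rr (ext a) 0 : ℝ) ≤ R0 := by
      rw [rl a ha 0 (Fin.succ_ne_zero k).symm]
      exact h0
    have pr : (∏ l : Fin n, (rr (ext a) l.succ : ℝ)) =
        (∏ l ∈ univ.erase k, (rr B l.succ : ℝ)) * a := by
      rw [← Finset.prod_erase_mul _ _ (Finset.mem_univ k), rk a ha]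
      congr 1
      exact Finset.prod_congr rfl fun l hl => by rw [rl a ha _ (hsucc l hl)]
    have c1 : (∏ l : Fin n, (rr (ext a) l.succ : ℝ)) ≤ R := by
      rw [pr]
      refine (mul_le_mul_of_nonneg_left h2 ?_).trans hR
      exact Finset.prod_nonneg fun l _ => Nat.cast_nonneg _
    rw [yv, if_pos ⟨c0, c1⟩, ← Finset.prod_erase_mul _ _ (Finset.mem_univ k), rk a ha]
    congr 1
    exact Finset.prod_congr rfl fun l hl => by rw [rl a ha _ (hsucc l hl)]
  have einj : Set.InjOn ext (S : Set ℕ) := by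
    intro a ha b hb hab
    rw [← rk a (Finset.mem_coe.mp ha), ← rk b (Finset.mem_coe.mp hb), hab]
  set G : ℝ := ∏ l ∈ univ.erase k, GG α V (rr B l.succ) with hG
  have hG0 : 0 ≤ G := Finset.prod_nonneg fun l _ => h7_GG_nonneg hα _
  have cop := hC W (qq B) V (GG α V) hW hqpos (h7_qq_sqf hP B) (fun a => h7_GG_nonneg hα a)
    (fun a b ha hab => h7_GG_anti hα ha hab)
  have sp : sprod (fun p => 1 - 1 / (p : ℝ)) B =
      ∏ p ∈ (qq B).primeFactors, (1 - 1 / (p : ℝ)) := by
    rw [← ykl_prod hP (qq B) hqpos (fun q hq hd => ykl_qq_pf hP B q hq hd)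
      (fun p => 1 - 1 / (p : ℝ))]
    unfold sprod
    refine Finset.prod_congr rfl fun p _ => ?_
    by_cases h : (p : ℕ) ∣ qq B
    · rw [if_pos h, if_pos ((ykl_some_iff hP B p).mp h)]
    · rw [if_neg h, if_neg (fun hh => h ((ykl_some_iff hP B p).mpr hh))]
  calc G * A1s W V α * sprod (fun p => 1 - 1 / (p : ℝ)) B
      = G * ((∏ p ∈ (qq B).primeFactors, (1 - 1 / (p : ℝ))) * ∑ a ∈ SF W V, GG α V a / a) := by
        rw [sp]
        unfold A1s
        ring
    _ ≤ G * ∑ a ∈ S, GG α V a / a := mul_le_mul_of_nonneg_left cop hG0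
    _ = ∑ a ∈ S, yv R0 R V α (ext a) *
          ∏ p : ↥(PP W Y), mY k.succ (p : ℕ) (ext a p) (B p) := by
        rw [Finset.mul_sum]
        refine Finset.sum_congr rfl fun a ha => ?_
        rw [wgt a ha, yval a ha]
        ring
    _ = ∑ A ∈ S.image ext, yv R0 R V α A *
          ∏ p : ↥(PP W Y), mY k.succ (p : ℕ) (A p) (B p) := by
        rw [Finset.sum_image einj]
    _ ≤ ltrans (mY k.succ) (yv R0 R V α) B := by
        unfold ltrans
        refine Finset.sum_le_sum_of_subset_of_nonneg (Finset.subset_univ _) fun A _ _ => ?_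
        exact mul_nonneg (ykl_yv_nonneg hα A)
          (Finset.prod_nonneg fun p _ => ykl_mY_nonneg _ _ _ _)

end MTA
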