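import Pool.Agent.H20.MT.Stmts

/-! Helper lemmas on configurations. -/

set_option autoImplicit false

namespace MTA
open Finset

variable {P : Finset ℕ} {n : ℕ}

lemma h7_rr_dvd (hP : ∀ p ∈ P, p.Prime) (A : Cfg P n) (k : Fin (n + 1)) (p : ↥P) :
    (p : ℕ) ∣ rr A k ↔ A p = some k := by
  have hp : (p : ℕ).Prime := hP p p.2
  unfold rr
  rw [hp.prime.dvd_finset_prod_iff]
  constructor
  · rintro ⟨q, -, hq⟩
    by_cases h : A q = some k
    · rw [if_pos h, Nat.prime_dvd_prime_iff_eq hp (hP q q.2)] at hq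
      rw [Subtype.ext hq]
      exact h
    · rw [if_neg h] at hq
      exact absurd (Nat.dvd_one.mp hq) hp.one_lt.ne'
  · intro h
    exact ⟨p, Finset.mem_univ _, by rw [if_pos h]⟩

lemma h7_inj (hP : ∀ p ∈ P, p.Prime) :
    Function.Injective (fun (A : Cfg P n) (k : Fin (n + 1)) => rr A k) := by
  intro A A' h
  funext p
  have key : ∀ k, A p = some k ↔ A' p = some k := by
    intro k
    rw [← h7_rr_dvd hP A k p, ← h7_rr_dvd hP A' k p]
    have := congrFun h k
    simp only at this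
    rw [this]
  rcases hA : A p with _ | k
  · rcases hA' : A' p with _ | k
    · rfl
    · have := (key k).mpr hA'
      rw [hA] at this
      exact absurd this (by simp)
  · exact ((key k).mp hA).symm

lemma h7_qq (A : Cfg P n) : qq A = ∏ k : Fin (n + 1), rr A k := by
  unfold qq rr
  rw [Finset.prod_comm]
  refine Finset.prod_congr rfl fun p _ => ?_
  rcases A p with _ | j
  · simp
  · simp [Finset.prod_ite_eq]

/-- a product of distinct primes is squarefree -/
lemma h7_sqf (hP : ∀ p ∈ P, p.Prime) (Q : ↥P → Prop) [DecidablePred Q] :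
    Squarefree (∏ p : ↥P, if Q p then (p : ℕ) else 1) := by
  refine Finset.squarefree_prod_of_pairwise_isCoprime ?_ ?_
  · intro a _ b _ hab
    simp only [Function.onFun, ← Nat.coprime_iff_isRelPrime]
    split_ifs
    · exact (Nat.coprime_primes (hP a a.2) (hP b b.2)).mpr fun h => hab (Subtype.ext h)
    all_goals simp
  · intro a _
    split_ifs
    · exact (hP a a.2).squarefree
    · exact squarefree_one

lemma h7_rr_sqf (hP : ∀ p ∈ P, p.Prime) (A : Cfg P n) (k : Fin (n + 1)) : Squarefree (rr A k) :=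
  h7_sqf hP _

lemma h7_qq_sqf (hP : ∀ p ∈ P, p.Prime) (A : Cfg P n) : Squarefree (qq A) :=
  h7_sqf hP _

lemma h7_rr_cop (W : ℕ) (hP : ∀ p ∈ P, p.Prime ∧ ¬ p ∣ W) (A : Cfg P n) (k : Fin (n + 1)) :
    (rr A k).Coprime W := by
  unfold rr
  refine Nat.Coprime.prod_left fun p _ => ?_
  split_ifs
  · exact ((hP p p.2).1.coprime_iff_not_dvd).mpr (hP p p.2).2
  · simp

lemma h7_rr_pos (hP : ∀ p ∈ P, p.Prime) (A : Cfg P n) (k : Fin (n + 1)) : 1 ≤ rr A k := by
  unfold rr
  refine Nat.one_le_iff_ne_zero.mpr (Finset.prod_ne_zero_iff.mpr fun p _ => ?_)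
  split_ifs
  · exact (hP p p.2).pos.ne'
  · simp

lemma h7_qq_pos (hP : ∀ p ∈ P, p.Prime) (A : Cfg P n) : 1 ≤ qq A := by
  rw [h7_qq]
  exact Nat.one_le_iff_ne_zero.mpr (Finset.prod_ne_zero_iff.mpr fun k _ =>
    (Nat.one_le_iff_ne_zero.mp (h7_rr_pos hP A k)))

lemma h7_PP {W : ℕ} {Y : ℝ} : ∀ p ∈ PP W Y, p.Prime ∧ ¬ p ∣ W := by
  intro p hp
  simp only [PP, Finset.mem_filter] at hp
  exact hp.2

lemma h7_GG_nonneg {α V : ℝ} (hα : 0 ≤ α) (a : ℕ) : 0 ≤ GG α V a := by
  unfold GG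
  split_ifs
  · have := Real.log_natCast_nonneg a
    positivity
  · exact le_rfl

lemma h7_GG_anti {α V : ℝ} (hα : 0 ≤ α) {a b : ℕ} (ha : 1 ≤ a) (hab : a ≤ b) :
    GG α V b ≤ GG α V a := by
  unfold GG
  have hab' : (a : ℝ) ≤ b := by exact_mod_cast hab
  split_ifs with h1 h2 h2
  · have h3 := Real.log_natCast_nonneg a
    have h4 : Real.log a ≤ Real.log b := Real.log_le_log (by exact_mod_cast ha) hab'
    have h5 : α * Real.log a ≤ α * Real.log b := mul_le_mul_of_nonneg_left h4 hα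
    have h6 : 0 ≤ α * Real.log a := by positivity
    exact one_div_le_one_div_of_le (by linarith) (by linarith)
  · exact absurd (hab'.trans h1) h2
  · have := Real.log_natCast_nonneg a
    positivity
  · exact le_rfl

lemma h7_mem_SF {W : ℕ} {y : ℝ} {a : ℕ} : a ∈ SF W y ↔
    1 ≤ a ∧ (a : ℝ) ≤ y ∧ Squarefree a ∧ a.Coprime W := by
  simp only [SF, Finset.mem_filter, Finset.mem_Icc]
  constructor
  · rintro ⟨⟨h1, h2⟩, h3, h4⟩
    exact ⟨h1, (Nat.le_floor_iff' (by omega)).mp h2, h3, h4⟩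
  · rintro ⟨h1, h2, h3, h4⟩
    exact ⟨⟨h1, (Nat.le_floor_iff' (by omega)).mpr h2⟩, h3, h4⟩

end MTA
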